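import Pool.Agent.H500.ED.Stm
import Pool.Agent.H500.HC.All
import Pool.Agent.H415.SV.Emb

set_option autoImplicit false
set_option linter.unusedSectionVars false

/-!
# Part D1 of project ED (helper500), by helper914: invariant types of Hecke characters

`t (σ ∘ g) = t σ` for `g ∈ Gal(L/M)` if the Hecke character takes the same value at all the places above a
place of `M`; so the type comes from `M`.
-/

namespace Pool.Agent.H914.ED.TINV

open NumberField IsDedekindDomain WithZero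
open Pool.Agent.H500.HC (InRay QBar ZBar em TotPos)
open Pool.Agent.H500.SV (Above)
open Pool.Agent.H500.TH (typB)
open Pool.Agent.H500.ED (IsHecke)
open Pool.Agent.H738.HC.Int (val_exp val_one val_uni)

/-! ### Exponents are determined by the values on the ray -/

theorem exps (hDir : Pool.Agent.H500.HC.S_Dir) (hNrm : Pool.Agent.H500.HC.S_Nrm)
    (L E : Type) [Field L] [NumberField L] [Field E] [NumberField E]
    (hcard : Fintype.card (L →+* E) = Module.finrank ℚ L) (A : ℕ) (hA : 0 < A)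
    (a b : (L →+* E) → ℕ)
    (h : ∀ x : 𝓞 L, InRay A x → ∏ σ, em σ x ^ a σ = ∏ σ, em σ x ^ b σ) (σ : L →+* E) :
    a σ = b σ := by
  classical
  obtain ⟨B, hB⟩ := hNrm L E hcard
  obtain ⟨w, y, hw, hy1, hy2, hwp, hwB⟩ := hDir E A 1 hA
    (by rw [Ideal.span_singleton_one, ← Ideal.one_eq_top]; exact isCoprime_one_left) B
  have hy0 : y ≠ 0 := by
    rintro rfl
    apply w.ne_bot
    rw [hw, Ideal.span_singleton_eq_bot]
  obtain ⟨v, x, -, hx, -, hx1, hx2, hx3⟩ := hB w y A hw hwp hwB hA ⟨hy0, hy1, hy2⟩ σ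
  have key : ∀ c : (L →+* E) → ℕ,
      w.valuation E ((∏ τ, em τ x ^ c τ : 𝓞 E) : E) = exp (-(c σ : ℤ)) := by
    intro c
    have e0 : ((∏ τ, em τ x ^ c τ : 𝓞 E) : E) = ∏ τ, ((em τ x : 𝓞 E) : E) ^ c τ := by
      have e1 := map_prod (algebraMap (𝓞 E) E) (fun τ => em τ x ^ c τ) Finset.univ
      refine e1.trans (Finset.prod_congr rfl fun τ _ => ?_)
      exact map_pow (algebraMap (𝓞 E) E) (em τ x) (c τ)
    rw [e0, map_prod, Finset.prod_eq_single σ]
    · rw [map_pow, val_uni hx1 hx2, ← exp_nsmul]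
      congr 1
      simp
    · intro τ _ hτ
      rw [map_pow, val_one (hx3 τ hτ), one_pow]
    · intro hn
      exact absurd (Finset.mem_univ _) hn
  have h1 := key a
  rw [h x hx, key b] at h1
  have h2 := exp_injective h1
  omega

/-! ### The action of the Galois group -/

section

variable {M L : Type} [Field M] [NumberField M] [Field L] [NumberField L] [Algebra M L]

/-- the automorphism of the integers -/
noncomputable def gz (g : L ≃ₐ[M] L) : 𝓞 L ≃+* 𝓞 L := RingOfIntegers.mapRingEquiv g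

theorem gz_coe (g : L ≃ₐ[M] L) (x : 𝓞 L) : ((gz g x : 𝓞 L) : L) = g (x : L) := rfl

theorem gz_alg (g : L ≃ₐ[M] L) (x : 𝓞 M) :
    gz g (algebraMap (𝓞 M) (𝓞 L) x) = algebraMap (𝓞 M) (𝓞 L) x := by
  apply RingOfIntegers.ext
  rw [gz_coe]
  exact g.commutes (x : M)

theorem psi_map (g : L ≃ₐ[M] L) (ψ : Ideal (𝓞 L) →*₀ ZBar)
    (h : ∀ (u : HeightOneSpectrum (𝓞 M)) (w w' : HeightOneSpectrum (𝓞 L)), Above w u →
      Above w' u → ψ w.asIdeal = ψ w'.asIdeal) (𝔞 : Ideal (𝓞 L)) :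
    ψ (𝔞.map (gz g : 𝓞 L →+* 𝓞 L)) = ψ 𝔞 := by
  induction 𝔞 using UniqueFactorizationMonoid.induction_on_prime with
  | h₁ => rw [Ideal.zero_eq_bot, Ideal.map_bot]
  | h₂ x hx =>
    rw [Ideal.isUnit_iff] at hx
    rw [hx, Ideal.map_top]
  | h₃ a p _ hp ih =>
    rw [Ideal.map_mul, map_mul, map_mul, ih]
    congr 1
    have hpp : p.IsPrime := Ideal.isPrime_of_prime hp
    have hp0 : p ≠ ⊥ := hp.ne_zero
    set w : HeightOneSpectrum (𝓞 L) := ⟨p, hpp, hp0⟩ with hw
    have hq : (p.map (gz g : 𝓞 L →+* 𝓞 L)).IsPrime := Ideal.map_isPrime_of_equiv (gz g)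
    have hmem : ∀ y : 𝓞 L, y ∈ p.map (gz g : 𝓞 L →+* 𝓞 L) ↔ ∃ x ∈ p, gz g x = y :=
      fun y => Ideal.mem_map_of_equiv (gz g) y
    have hq0 : p.map (gz g : 𝓞 L →+* 𝓞 L) ≠ ⊥ := by
      intro h0
      apply hp0
      rw [eq_bot_iff]
      intro x hx
      have h1 : gz g x ∈ p.map (gz g : 𝓞 L →+* 𝓞 L) := Ideal.mem_map_of_mem _ hx
      rw [h0, Ideal.mem_bot] at h1
      rw [Ideal.mem_bot]
      exact (gz g).injective (h1.trans (map_zero _).symm)
    set w' : HeightOneSpectrum (𝓞 L) := ⟨p.map (gz g : 𝓞 L →+* 𝓞 L), hq, hq0⟩ with hw'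
    have hA : Above w (w.under (𝓞 M)) := rfl
    have hA' : Above w' (w.under (𝓞 M)) := by
      show (p.map (gz g : 𝓞 L →+* 𝓞 L)).comap (algebraMap (𝓞 M) (𝓞 L)) =
        p.comap (algebraMap (𝓞 M) (𝓞 L))
      ext x
      rw [Ideal.mem_comap, Ideal.mem_comap, hmem]
      constructor
      · rintro ⟨z, hz, hzx⟩
        have : z = algebraMap (𝓞 M) (𝓞 L) x :=
          (gz g).injective (hzx.trans (gz_alg g x).symm)
        rwa [this] at hz
      · intro hx
        exact ⟨_, hx, gz_alg g x⟩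
    exact h _ w' w hA' hA

theorem inRay_gz (g : L ≃ₐ[M] L) {A : ℕ} {x : 𝓞 L} (hx : InRay A x) : InRay A (gz g x) := by
  obtain ⟨h0, h1, h2⟩ := hx
  refine ⟨fun h => h0 ((gz g).injective (h.trans (map_zero _).symm)), ?_, fun τ => ?_⟩
  · have h3 := map_dvd (gz g) h1
    rwa [map_natCast, map_sub, map_one] at h3
  · exact h2 (τ.comp (g : L →+* L))

theorem typB_gz (g : L ≃ₐ[M] L) {A B : ℕ} {t : (L →+* QBar) → ℕ} {ψ : Ideal (𝓞 L) →*₀ ZBar}
    (hH : IsHecke A B t ψ)
    (h : ∀ (u : HeightOneSpectrum (𝓞 M)) (w w' : HeightOneSpectrum (𝓞 L)), Above w u →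
      Above w' u → ψ w.asIdeal = ψ w'.asIdeal) {x : 𝓞 L} (hx : InRay A x) :
    typB t (gz g x) = typB t x := by
  rw [← hH.typ x hx, ← hH.typ _ (inRay_gz g hx), ← psi_map g ψ h (Ideal.span {x}), Ideal.map_span,
    Set.image_singleton]
  rfl

/-- precomposition with `g` -/
noncomputable def pre (g : L ≃ₐ[M] L) : (L →+* QBar) ≃ (L →+* QBar) where
  toFun σ := σ.comp (g : L →+* L)
  invFun σ := σ.comp (g.symm : L →+* L)
  left_inv σ := by
    ext x
    simp
  right_inv σ := by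
    ext x
    simp

theorem tinv (hDir : Pool.Agent.H500.HC.S_Dir) (hNrm : Pool.Agent.H500.HC.S_Nrm)
    (hEmb : Pool.Agent.H500.SV.S_Emb) (g : L ≃ₐ[M] L) {A B : ℕ} (hA : 0 < A)
    {t : (L →+* QBar) → ℕ} {ψ : Ideal (𝓞 L) →*₀ ZBar} (hH : IsHecke A B t ψ)
    (h : ∀ (u : HeightOneSpectrum (𝓞 M)) (w w' : HeightOneSpectrum (𝓞 L)), Above w u →
      Above w' u → ψ w.asIdeal = ψ w'.asIdeal) (σ : L →+* QBar) :
    t (σ.comp (g : L →+* L)) = t σ := by
  classical
  obtain ⟨E, _, _, i, j, hij, hcard⟩ := hEmb L σ 1 (fun _ => L)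
  have hcard0 : Fintype.card (L →+* E) = Module.finrank ℚ L := hcard 0
  -- all embeddings factor through `j`
  let F : (L →+* E) → (L →+* QBar) := fun τ => j.comp τ
  have hFi : Function.Injective F := by
    intro τ τ' hτ
    ext x
    exact j.injective (RingHom.congr_fun hτ x)
  have hFb : Function.Bijective F := by
    rw [Fintype.bijective_iff_injective_and_card]
    refine ⟨hFi, ?_⟩
    rw [hcard0]
    exact (NumberField.Embeddings.card L QBar).symm
  let Fe : (L →+* E) ≃ (L →+* QBar) := Equiv.ofBijective F hFb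
  have hem : ∀ (τ : L →+* E) (x : 𝓞 L),
      RingOfIntegers.mapRingHom (j.comp τ) x = RingOfIntegers.mapRingHom j (em τ x) := by
    intro τ x
    apply RingOfIntegers.ext
    rfl
  have hji : Function.Injective (RingOfIntegers.mapRingHom j) := by
    intro x y hxy
    apply RingOfIntegers.ext
    apply j.injective
    exact congrArg (algebraMap ZBar QBar) hxy
  have hprod : ∀ (c : (L →+* QBar) → ℕ) (x : 𝓞 L),
      (∏ τ : L →+* QBar, RingOfIntegers.mapRingHom τ x ^ c τ) =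
        RingOfIntegers.mapRingHom j (∏ τ : L →+* E, em τ x ^ c (j.comp τ)) := by
    intro c x
    rw [← Fe.prod_comp, map_prod]
    refine Finset.prod_congr rfl fun τ _ => ?_
    rw [map_pow, ← hem]
    rfl
  have hx : ∀ x : 𝓞 L, InRay A x → ∏ τ : L →+* E, em τ x ^ t (j.comp τ) =
      ∏ τ : L →+* E, em τ x ^ t ((pre g).symm (j.comp τ)) := by
    intro x hx
    apply hji
    rw [← hprod t x, ← hprod (fun τ => t ((pre g).symm τ)) x]
    have h1 := typB_gz g hH h hx
    unfold typB at h1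
    rw [← h1, ← (pre g).prod_comp (fun τ => RingOfIntegers.mapRingHom τ x ^ t ((pre g).symm τ))]
    refine Finset.prod_congr rfl fun τ _ => ?_
    rw [Equiv.symm_apply_apply]
    rfl
  have h2 := exps hDir hNrm L E hcard0 A hA _ _ hx ((Fe.symm ((pre g) σ)))
  have h3 : j.comp (Fe.symm ((pre g) σ)) = (pre g) σ := Fe.apply_symm_apply _
  rw [h3, Equiv.symm_apply_apply] at h2
  exact h2

theorem ext_gal (hG : IsGalois M L) (σ σ' : L →+* QBar)
    (h : σ.comp (algebraMap M L) = σ'.comp (algebraMap M L)) :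
    ∃ g : L ≃ₐ[M] L, σ' = σ.comp (g : L →+* L) := by
  let _ : Algebra L QBar := σ.toAlgebra
  let _ : Algebra M QBar := (σ.comp (algebraMap M L)).toAlgebra
  have _ : IsScalarTower M L QBar := IsScalarTower.of_algebraMap_eq fun _ => rfl
  have _ : Normal M L := hG.to_normal
  let s : L →ₐ[M] QBar := { σ' with commutes' := fun x => (RingHom.congr_fun h x).symm }
  refine ⟨Normal.algHomEquivAut M QBar L s, ?_⟩
  have h1 := (Normal.algHomEquivAut M QBar L).symm_apply_apply s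
  ext x
  have h2 := DFunLike.congr_fun h1 x
  exact h2.symm

end

theorem main0 : Pool.Agent.H500.HC.S_Dir → Pool.Agent.H500.HC.S_Nrm →
    Pool.Agent.H500.SV.S_Emb → Pool.Agent.H500.ED.S_TINV := by
  intro hDir hNrm hEmb M L _ _ _ _ _ hG A B t ψ hA _ hH h
  classical
  refine ⟨fun s => if hs : ∃ σ : L →+* QBar, σ.comp (algebraMap M L) = s then t hs.choose else 0,
    fun σ => ?_⟩
  have hs : ∃ σ' : L →+* QBar, σ'.comp (algebraMap M L) = σ.comp (algebraMap M L) := ⟨σ, rfl⟩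
  refine Eq.trans ?_ (dif_pos hs).symm
  obtain ⟨g, hg⟩ := ext_gal hG hs.choose σ hs.choose_spec
  rw [← tinv hDir hNrm hEmb g hA hH h hs.choose, ← hg]

theorem main : Pool.Agent.H500.ED.S_TINV :=
  main0 Pool.Agent.H500.HC.all_Dir Pool.Agent.H500.HC.all_Nrm Pool.Agent.H415.SV.Emb.main

end Pool.Agent.H914.ED.TINV
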